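import Mathlib

set_option autoImplicit false

namespace Pool.Agent.Results.MP_4671c3_co.LogRank

universe u v w

/-- A partial latin square, as a finite set of triples (row, column, symbol): any two coordinates
of a triple determine the third. -/
def IsPLS {R C S : Type u} (P : Finset (R × C × S)) : Prop :=
  ∀ p ∈ P, ∀ q ∈ P,
    (p.1 = q.1 → p.2.1 = q.2.1 → p.2.2 = q.2.2) ∧
    (p.1 = q.1 → p.2.2 = q.2.2 → p.2.1 = q.2.1) ∧
    (p.2.1 = q.2.1 → p.2.2 = q.2.2 → p.1 = q.1)

/-- `(W,B)` is a latin bitrade. -/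
def IsBitrade {R C S : Type u} (W B : Finset (R × C × S)) : Prop :=
  W.Nonempty ∧ B.Nonempty ∧ IsPLS W ∧ IsPLS B ∧
    (∀ r c, (∃ s, (r, c, s) ∈ W) ↔ ∃ s, (r, c, s) ∈ B) ∧
    (∀ r s, (∃ c, (r, c, s) ∈ W) ↔ ∃ c, (r, c, s) ∈ B) ∧
    (∀ c s, (∃ r, (r, c, s) ∈ W) ↔ ∃ r, (r, c, s) ∈ B) ∧
    ∀ r c s, (r, c, s) ∈ W → (r, c, s) ∉ B

/-- The partial latin square `P` embeds in the abelian group `G`: there are maps, injective on the
rows, the columns and the symbols occurring in `P`, with `α(r) + β(c) = γ(s)` on `P`. -/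
def Embeds {R C S : Type u} (P : Finset (R × C × S)) (G : Type v) [AddCommGroup G] : Prop :=
  ∃ (α : R → G) (β : C → G) (γ : S → G),
    (∀ p ∈ P, ∀ q ∈ P, α p.1 = α q.1 → p.1 = q.1) ∧
    (∀ p ∈ P, ∀ q ∈ P, β p.2.1 = β q.2.1 → p.2.1 = q.2.1) ∧
    (∀ p ∈ P, ∀ q ∈ P, γ p.2.2 = γ q.2.2 → p.2.2 = q.2.2) ∧
    ∀ p ∈ P, α p.1 + β p.2.1 = γ p.2.2

/-- `G` can be generated by at most `m` elements. -/
def GeneratedBy (G : Type v) [AddCommGroup G] (m : ℕ) : Prop :=
  ∃ s : Finset G, s.card ≤ m ∧ AddSubgroup.closure (s : Set G) = ⊤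

/-- `ρ(W,B)`: the least rank (minimal number of generators) of an abelian group in which both
mates embed. -/
noncomputable def rho {R C S : Type u} (W B : Finset (R × C × S)) : ℕ :=
  sInf {m : ℕ | ∃ (G : Type) (_ : AddCommGroup G), GeneratedBy G m ∧ Embeds W G ∧ Embeds B G}

/-- Some abelian group (in the universe `v`) contains both mates. -/
def BothEmbed {R C S : Type u} (W B : Finset (R × C × S)) : Prop :=
  ∃ (A : Type v) (_ : AddCommGroup A), Embeds W A ∧ Embeds B A

section characters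

variable {A : Type v} [AddCommGroup A]

/-- One character is nonzero on at least half of a finite set of nonzero elements. -/
theorem exists_half (D : Finset A) (hD : ∀ d ∈ D, d ≠ 0) :
    ∃ χ : A →+ AddCircle (1 : ℚ), 2 * (D.filter fun d => χ d = 0).card ≤ D.card := by
  classical
  have hsep : ∀ d : A, ∃ χ : A →+ AddCircle (1 : ℚ), d ∈ D → χ d ≠ 0 := by
    intro d
    by_cases hd : d ∈ D
    · obtain ⟨c, hc⟩ := CharacterModule.exists_character_apply_ne_zero_of_ne_zero (hD d hd)
      exact ⟨c, fun _ => hc⟩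
    · exact ⟨0, fun h => absurd h hd⟩
  choose X hX using hsep
  -- for a subset `I` of `D` put `χ_I = ∑_{d ∈ I} X d`
  let F : Finset A → (A →+ AddCircle (1 : ℚ)) := fun I => ∑ d ∈ I, X d
  have hkill : ∀ d ∈ D, 2 * (D.powerset.filter fun I => F I d = 0).card ≤ D.powerset.card := by
    intro d hd
    -- toggling `d`
    let τ : Finset A → Finset A := fun I => if d ∈ I then I.erase d else insert d I
    have hτ : ∀ I, τ (τ I) = I := by
      intro I
      by_cases h : d ∈ I
      · have h1 : τ I = I.erase d := if_pos h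
        rw [h1]
        have h2 : d ∉ I.erase d := Finset.notMem_erase d I
        show (if d ∈ I.erase d then _ else _) = I
        rw [if_neg h2, Finset.insert_erase h]
      · have h1 : τ I = insert d I := if_neg h
        rw [h1]
        show (if d ∈ insert d I then _ else _) = I
        rw [if_pos (Finset.mem_insert_self d I), Finset.erase_insert h]
    have hτD : ∀ I ∈ D.powerset, τ I ∈ D.powerset := by
      intro I hI
      rw [Finset.mem_powerset] at hI ⊢
      show (if d ∈ I then _ else _) ⊆ D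
      split_ifs
      · exact (Finset.erase_subset _ _).trans hI
      · exact Finset.insert_subset hd hI
    have hne : ∀ I, F I d = 0 → F (τ I) d ≠ 0 := by
      intro I h0
      by_cases h : d ∈ I
      · have h1 : τ I = I.erase d := if_pos h
        rw [h1]
        have h2 : X d + F (I.erase d) = F I := Finset.add_sum_erase I X h
        have h3 : X d d + F (I.erase d) d = F I d := by rw [← h2]; rfl
        intro h4
        rw [h0, h4, add_zero] at h3
        exact hX d hd h3
      · have h1 : τ I = insert d I := if_neg h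
        rw [h1]
        have h2 : F (insert d I) = X d + F I := Finset.sum_insert h
        have h3 : F (insert d I) d = X d d + F I d := by rw [h2]; rfl
        rw [h3, h0, add_zero]
        exact hX d hd
    have hinj : ((D.powerset.filter fun I => F I d = 0).image τ) ⊆
        D.powerset.filter fun I => F I d ≠ 0 := by
      intro J hJ
      obtain ⟨I, hI, rfl⟩ := Finset.mem_image.1 hJ
      obtain ⟨hI1, hI2⟩ := Finset.mem_filter.1 hI
      exact Finset.mem_filter.2 ⟨hτD I hI1, hne I hI2⟩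
    have hcard := Finset.card_le_card hinj
    rw [Finset.card_image_of_injective _ (fun I J h => by rw [← hτ I, h, hτ J])] at hcard
    have hsum := Finset.card_filter_add_card_filter_not (s := D.powerset)
      (fun I : Finset A => F I d = 0)
    simp only [ne_eq] at hcard
    omega
  by_contra hcon
  push Not at hcon
  have h1 : ∑ I ∈ D.powerset, 2 * (D.filter fun d => F I d = 0).card ≤
      ∑ d ∈ D, D.powerset.card := by
    calc ∑ I ∈ D.powerset, 2 * (D.filter fun d => F I d = 0).card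
        = 2 * ∑ I ∈ D.powerset, ∑ d ∈ D, (if F I d = 0 then 1 else 0) := by
          rw [Finset.mul_sum]
          refine Finset.sum_congr rfl fun I _ => ?_
          rw [Finset.card_filter]
      _ = 2 * ∑ d ∈ D, ∑ I ∈ D.powerset, (if F I d = 0 then 1 else 0) := by
          rw [Finset.sum_comm]
      _ = ∑ d ∈ D, 2 * (D.powerset.filter fun I => F I d = 0).card := by
          rw [Finset.mul_sum]
          refine Finset.sum_congr rfl fun d _ => ?_
          rw [Finset.card_filter]
      _ ≤ _ := Finset.sum_le_sum hkill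
  have h2 : ∑ I ∈ D.powerset, (D.card + 1) ≤
      ∑ I ∈ D.powerset, 2 * (D.filter fun d => F I d = 0).card :=
    Finset.sum_le_sum fun I _ => hcon (F I)
  rw [Finset.sum_const, smul_eq_mul] at h1 h2
  have h3 : 0 < D.powerset.card := by rw [Finset.card_powerset]; positivity
  nlinarith

/-- Fewer than `2 ^ m` nonzero elements are separated from zero by `m` characters. -/
theorem exists_chars (m : ℕ) : ∀ D : Finset A, (∀ d ∈ D, d ≠ 0) → D.card < 2 ^ m →
    ∃ χ : Fin m → (A →+ AddCircle (1 : ℚ)), ∀ d ∈ D, ∃ i, χ i d ≠ 0 := by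
  classical
  induction m with
  | zero =>
    intro D _ hc
    refine ⟨fun _ => 0, fun d hd => ?_⟩
    have : D = ∅ := by
      rw [← Finset.card_eq_zero]
      simpa using hc
    rw [this] at hd
    exact absurd hd (Finset.notMem_empty d)
  | succ m ih =>
    intro D hD hc
    obtain ⟨χ0, hχ0⟩ := exists_half D hD
    obtain ⟨χ, hχ⟩ := ih (D.filter fun d => χ0 d = 0) (fun d hd => hD d (Finset.mem_filter.1 hd).1)
      (by rw [pow_succ] at hc; omega)
    refine ⟨Fin.cons χ0 χ, fun d hd => ?_⟩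
    by_cases h : χ0 d = 0
    · obtain ⟨i, hi⟩ := hχ d (Finset.mem_filter.2 ⟨hd, h⟩)
      exact ⟨i.succ, by simpa using hi⟩
    · exact ⟨0, by simpa using h⟩

end characters

/-- The subgroup of `(ℚ/ℤ)^m` generated by the `m` elements `(1/N) e_i`. -/
def gridGroup (m N : ℕ) : AddSubgroup (Fin m → AddCircle (1 : ℚ)) :=
  AddSubgroup.closure (Set.range fun i : Fin m =>
    (Pi.single i (((1 / (N : ℚ) : ℚ)) : AddCircle (1 : ℚ)) : Fin m → AddCircle (1 : ℚ)))

theorem grid_generated (m N : ℕ) : GeneratedBy (gridGroup m N) m := by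
  classical
  let e : Fin m → gridGroup m N := fun i =>
    ⟨Pi.single i (((1 / (N : ℚ) : ℚ)) : AddCircle (1 : ℚ)),
      AddSubgroup.subset_closure ⟨i, rfl⟩⟩
  refine ⟨Finset.univ.image e, (Finset.card_image_le).trans (by simp), ?_⟩
  have h1 : (((Finset.univ.image e : Finset (gridGroup m N))) : Set (gridGroup m N)) =
      Set.range e := by simp
  rw [h1]
  have h2 : Set.range e = ((↑) : gridGroup m N → (Fin m → AddCircle (1 : ℚ))) ⁻¹'
      (Set.range fun i : Fin m =>
        (Pi.single i (((1 / (N : ℚ) : ℚ)) : AddCircle (1 : ℚ)) : Fin m → AddCircle (1 : ℚ))) := by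
    ext x
    constructor
    · rintro ⟨i, rfl⟩; exact ⟨i, rfl⟩
    · rintro ⟨i, hi⟩; exact ⟨i, Subtype.ext hi⟩
  rw [h2]
  exact AddSubgroup.closure_closure_coe_preimage

/-- Elements with all coordinates of the form `a / N` lie in the grid group. -/
theorem mem_grid {m N : ℕ} (x : Fin m → AddCircle (1 : ℚ))
    (hx : ∀ i, ∃ a : ℤ, x i = ((a / (N : ℚ) : ℚ) : AddCircle (1 : ℚ))) : x ∈ gridGroup m N := by
  classical
  choose a ha using hx
  have : x = ∑ i, a i • (Pi.single i (((1 / (N : ℚ) : ℚ)) : AddCircle (1 : ℚ)) :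
      Fin m → AddCircle (1 : ℚ)) := by
    funext j
    rw [Finset.sum_apply, Finset.sum_eq_single j]
    · rw [Pi.smul_apply, Pi.single_eq_same, ha j, ← AddCircle.coe_zsmul]
      congr 1
      rw [zsmul_eq_mul]; ring
    · intro b _ hb
      rw [Pi.smul_apply, Pi.single_eq_of_ne hb.symm, smul_zero]
    · intro h; exact absurd (Finset.mem_univ j) h
  rw [this]
  refine AddSubgroup.sum_mem _ fun i _ => AddSubgroup.zsmul_mem _ ?_ _
  exact AddSubgroup.subset_closure ⟨i, rfl⟩

/-- Finitely many elements of `ℚ/ℤ` have a common denominator. -/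
theorem common_denominator (T : Finset (AddCircle (1 : ℚ))) :
    ∃ N : ℕ, 0 < N ∧ ∀ x ∈ T, ∃ a : ℤ, x = ((a / (N : ℚ) : ℚ) : AddCircle (1 : ℚ)) := by
  classical
  induction T using Finset.induction_on with
  | empty => exact ⟨1, one_pos, fun x hx => absurd hx (Finset.notMem_empty x)⟩
  | insert y T _ ih =>
    obtain ⟨N, hN, h⟩ := ih
    obtain ⟨q, rfl⟩ := QuotientAddGroup.mk_surjective y
    refine ⟨N * q.den, Nat.mul_pos hN q.den_pos, fun x hx => ?_⟩
    have hN0 : (N : ℚ) ≠ 0 := by exact_mod_cast hN.ne'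
    have hd0 : (q.den : ℚ) ≠ 0 := by exact_mod_cast q.den_pos.ne'
    rcases Finset.mem_insert.1 hx with rfl | hx
    · refine ⟨q.num * N, ?_⟩
      have : q = ((q.num * N : ℤ) : ℚ) / ((N * q.den : ℕ) : ℚ) := by
        push_cast
        rw [mul_comm (N : ℚ) (q.den : ℚ), mul_div_mul_right _ _ hN0, Rat.num_div_den]
      conv_lhs => rw [this]
    · obtain ⟨a, ha⟩ := h x hx
      refine ⟨a * q.den, ?_⟩
      rw [ha]
      congr 1
      push_cast
      rw [mul_div_mul_right _ _ hd0]

/-- Main bound. -/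
theorem exists_small_group {R C S : Type u} (W B : Finset (R × C × S)) {A : Type v}
    [AddCommGroup A] (hW : Embeds W A) (hB : Embeds B A) (hcard : B.card = W.card) :
    ∃ (G : Type) (_ : AddCommGroup G), GeneratedBy G (2 * Nat.log 2 W.card + 5) ∧
      Embeds W G ∧ Embeds B G := by
  classical
  obtain ⟨α, β, γ, hα, hβ, hγ, hs⟩ := hW
  obtain ⟨α', β', γ', hα', hβ', hγ', hs'⟩ := hB
  set m := 2 * Nat.log 2 W.card + 5 with hm
  -- the set of differences
  let D1 (P : Finset (R × C × S)) (f : R × C × S → A) : Finset A :=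
    ((P ×ˢ P).image fun pq => f pq.1 - f pq.2).erase 0
  have hD1 : ∀ (P : Finset (R × C × S)) (f : R × C × S → A), (D1 P f).card ≤ P.card ^ 2 := by
    intro P f
    refine (Finset.card_erase_le).trans (Finset.card_image_le.trans ?_)
    rw [Finset.card_product, sq]
  let D : Finset A :=
    (D1 W (fun p => α p.1) ∪ D1 W (fun p => β p.2.1) ∪ D1 W (fun p => γ p.2.2)) ∪
    (D1 B (fun p => α' p.1) ∪ D1 B (fun p => β' p.2.1) ∪ D1 B (fun p => γ' p.2.2))
  have hDne : ∀ d ∈ D, d ≠ 0 := by
    intro d hd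
    simp only [D, Finset.mem_union] at hd
    rcases hd with ((hd | hd) | hd) | ((hd | hd) | hd) <;> exact (Finset.mem_erase.1 hd).1
  have hDcard : D.card < 2 ^ m := by
    have h1 : D.card ≤ 6 * W.card ^ 2 := by
      have a1 := hD1 W (fun p => α p.1)
      have a2 := hD1 W (fun p => β p.2.1)
      have a3 := hD1 W (fun p => γ p.2.2)
      have b1 := hD1 B (fun p => α' p.1)
      have b2 := hD1 B (fun p => β' p.2.1)
      have b3 := hD1 B (fun p => γ' p.2.2)
      rw [hcard] at b1 b2 b3
      have c1 := Finset.card_union_le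
        (D1 W (fun p => α p.1) ∪ D1 W (fun p => β p.2.1) ∪ D1 W (fun p => γ p.2.2))
        (D1 B (fun p => α' p.1) ∪ D1 B (fun p => β' p.2.1) ∪ D1 B (fun p => γ' p.2.2))
      have c2 := Finset.card_union_le
        (D1 W (fun p => α p.1) ∪ D1 W (fun p => β p.2.1)) (D1 W (fun p => γ p.2.2))
      have c3 := Finset.card_union_le (D1 W (fun p => α p.1)) (D1 W (fun p => β p.2.1))
      have c4 := Finset.card_union_le
        (D1 B (fun p => α' p.1) ∪ D1 B (fun p => β' p.2.1)) (D1 B (fun p => γ' p.2.2))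
      have c5 := Finset.card_union_le (D1 B (fun p => α' p.1)) (D1 B (fun p => β' p.2.1))
      show (_ ∪ _ : Finset A).card ≤ _
      omega
    have h2 : W.card < 2 ^ (Nat.log 2 W.card + 1) := Nat.lt_pow_succ_log_self (by norm_num) _
    have h3 : W.card ^ 2 < (2 ^ (Nat.log 2 W.card + 1)) ^ 2 := Nat.pow_lt_pow_left h2 (by norm_num)
    have h4 : 2 ^ m = 8 * (2 ^ (Nat.log 2 W.card + 1)) ^ 2 := by rw [hm]; ring
    omega
  obtain ⟨χ, hχ⟩ := exists_chars m D hDne hDcard
  -- the values
  let f : A → (Fin m → AddCircle (1 : ℚ)) := fun x i => χ i x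
  have hf_add : ∀ x y, f (x + y) = f x + f y := fun x y => by
    funext i; exact map_add (χ i) x y
  have hf_sub : ∀ x y, f (x - y) = f x - f y := fun x y => by
    funext i; exact map_sub (χ i) x y
  have hf_ne : ∀ d ∈ D, f d ≠ 0 := by
    intro d hd h
    obtain ⟨i, hi⟩ := hχ d hd
    exact hi (congrFun h i)
  let vals (P : Finset (R × C × S)) (g : R × C × S → A) : Finset (AddCircle (1 : ℚ)) :=
    (P ×ˢ (Finset.univ : Finset (Fin m))).image fun pi => f (g pi.1) pi.2
  let T : Finset (AddCircle (1 : ℚ)) :=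
    (vals W (fun p => α p.1) ∪ vals W (fun p => β p.2.1) ∪ vals W (fun p => γ p.2.2)) ∪
    (vals B (fun p => α' p.1) ∪ vals B (fun p => β' p.2.1) ∪ vals B (fun p => γ' p.2.2))
  obtain ⟨N, _, hT⟩ := common_denominator T
  have hmem : ∀ (P : Finset (R × C × S)) (g : R × C × S → A), vals P g ⊆ T →
      ∀ p ∈ P, f (g p) ∈ gridGroup m N := by
    intro P g hsub p hp
    refine mem_grid _ fun i => hT _ (hsub ?_)
    exact Finset.mem_image.2 ⟨(p, i), Finset.mem_product.2 ⟨hp, Finset.mem_univ i⟩, rfl⟩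
  have sW1 : vals W (fun p => α p.1) ⊆ T := fun x hx => by
    simp only [T, Finset.mem_union]; tauto
  have sW2 : vals W (fun p => β p.2.1) ⊆ T := fun x hx => by
    simp only [T, Finset.mem_union]; tauto
  have sW3 : vals W (fun p => γ p.2.2) ⊆ T := fun x hx => by
    simp only [T, Finset.mem_union]; tauto
  have sB1 : vals B (fun p => α' p.1) ⊆ T := fun x hx => by
    simp only [T, Finset.mem_union]; tauto
  have sB2 : vals B (fun p => β' p.2.1) ⊆ T := fun x hx => by
    simp only [T, Finset.mem_union]; tauto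
  have sB3 : vals B (fun p => γ' p.2.2) ⊆ T := fun x hx => by
    simp only [T, Finset.mem_union]; tauto
  -- descend an `A`-valued map to the grid group
  let lift : A → gridGroup m N := fun x => if h : f x ∈ gridGroup m N then ⟨f x, h⟩ else 0
  have hlift : ∀ x, f x ∈ gridGroup m N → ((lift x : gridGroup m N) : Fin m → AddCircle (1 : ℚ)) =
      f x := by
    intro x hx
    simp only [lift, dif_pos hx]
  have emb : ∀ (P : Finset (R × C × S)) (a : R → A) (b : C → A) (c : S → A),
      (∀ p ∈ P, ∀ q ∈ P, a p.1 = a q.1 → p.1 = q.1) →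
      (∀ p ∈ P, ∀ q ∈ P, b p.2.1 = b q.2.1 → p.2.1 = q.2.1) →
      (∀ p ∈ P, ∀ q ∈ P, c p.2.2 = c q.2.2 → p.2.2 = q.2.2) →
      (∀ p ∈ P, a p.1 + b p.2.1 = c p.2.2) →
      (∀ p ∈ P, ∀ q ∈ P, a p.1 - a q.1 ≠ 0 → a p.1 - a q.1 ∈ D) →
      (∀ p ∈ P, ∀ q ∈ P, b p.2.1 - b q.2.1 ≠ 0 → b p.2.1 - b q.2.1 ∈ D) →
      (∀ p ∈ P, ∀ q ∈ P, c p.2.2 - c q.2.2 ≠ 0 → c p.2.2 - c q.2.2 ∈ D) →
      (∀ p ∈ P, f (a p.1) ∈ gridGroup m N) → (∀ p ∈ P, f (b p.2.1) ∈ gridGroup m N) →
      (∀ p ∈ P, f (c p.2.2) ∈ gridGroup m N) → Embeds P (gridGroup m N) := by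
    intro P a b c ha hb hc hsum da db dc ga gb gc
    refine ⟨fun r => lift (a r), fun k => lift (b k), fun s => lift (c s), ?_, ?_, ?_, ?_⟩
    · intro p hp q hq h
      by_contra hpq
      have hne : a p.1 - a q.1 ≠ 0 := fun h0 => hpq (ha p hp q hq (sub_eq_zero.1 h0))
      refine hf_ne _ (da p hp q hq hne) ?_
      rw [hf_sub, ← hlift _ (ga p hp), ← hlift _ (ga q hq)]
      show ((lift (a p.1) : gridGroup m N) : Fin m → AddCircle (1 : ℚ)) - _ = 0
      rw [show lift (a p.1) = lift (a q.1) from h, sub_self]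
    · intro p hp q hq h
      by_contra hpq
      have hne : b p.2.1 - b q.2.1 ≠ 0 := fun h0 => hpq (hb p hp q hq (sub_eq_zero.1 h0))
      refine hf_ne _ (db p hp q hq hne) ?_
      rw [hf_sub, ← hlift _ (gb p hp), ← hlift _ (gb q hq)]
      show ((lift (b p.2.1) : gridGroup m N) : Fin m → AddCircle (1 : ℚ)) - _ = 0
      rw [show lift (b p.2.1) = lift (b q.2.1) from h, sub_self]
    · intro p hp q hq h
      by_contra hpq
      have hne : c p.2.2 - c q.2.2 ≠ 0 := fun h0 => hpq (hc p hp q hq (sub_eq_zero.1 h0))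
      refine hf_ne _ (dc p hp q hq hne) ?_
      rw [hf_sub, ← hlift _ (gc p hp), ← hlift _ (gc q hq)]
      show ((lift (c p.2.2) : gridGroup m N) : Fin m → AddCircle (1 : ℚ)) - _ = 0
      rw [show lift (c p.2.2) = lift (c q.2.2) from h, sub_self]
    · intro p hp
      apply Subtype.ext
      show ((lift (a p.1) : gridGroup m N) : Fin m → AddCircle (1 : ℚ)) +
        ((lift (b p.2.1) : gridGroup m N) : Fin m → AddCircle (1 : ℚ)) = _
      rw [hlift _ (ga p hp), hlift _ (gb p hp), ← hf_add, hsum p hp]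
      exact (hlift _ (gc p hp)).symm
  have inD1 : ∀ (P : Finset (R × C × S)) (g : R × C × S → A) (p q : R × C × S), p ∈ P → q ∈ P →
      g p - g q ≠ 0 → g p - g q ∈ D1 P g := by
    intro P g p q hp hq h
    exact Finset.mem_erase.2 ⟨h, Finset.mem_image.2 ⟨(p, q), Finset.mem_product.2 ⟨hp, hq⟩, rfl⟩⟩
  refine ⟨gridGroup m N, inferInstance, grid_generated m N, ?_, ?_⟩
  · refine emb W α β γ hα hβ hγ hs ?_ ?_ ?_ (hmem W (fun p => α p.1) sW1)
      (hmem W (fun p => β p.2.1) sW2) (hmem W (fun p => γ p.2.2) sW3)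
    · intro p hp q hq h
      have := inD1 W (fun p => α p.1) p q hp hq h
      simp only [D, Finset.mem_union]; tauto
    · intro p hp q hq h
      have := inD1 W (fun p => β p.2.1) p q hp hq h
      simp only [D, Finset.mem_union]; tauto
    · intro p hp q hq h
      have := inD1 W (fun p => γ p.2.2) p q hp hq h
      simp only [D, Finset.mem_union]; tauto
  · refine emb B α' β' γ' hα' hβ' hγ' hs' ?_ ?_ ?_ (hmem B (fun p => α' p.1) sB1)
      (hmem B (fun p => β' p.2.1) sB2) (hmem B (fun p => γ' p.2.2) sB3)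
    · intro p hp q hq h
      have := inD1 B (fun p => α' p.1) p q hp hq h
      simp only [D, Finset.mem_union]; tauto
    · intro p hp q hq h
      have := inD1 B (fun p => β' p.2.1) p q hp hq h
      simp only [D, Finset.mem_union]; tauto
    · intro p hp q hq h
      have := inD1 B (fun p => γ' p.2.2) p q hp hq h
      simp only [D, Finset.mem_union]; tauto

/-- The two mates have the same number of triples. -/
theorem card_eq {R C S : Type u} {W B : Finset (R × C × S)} (h : IsBitrade W B) :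
    B.card = W.card := by
  classical
  obtain ⟨-, -, hW, hB, hcell, -, -, -⟩ := h
  have key : ∀ P : Finset (R × C × S), IsPLS P →
      (P.image fun p => (p.1, p.2.1)).card = P.card := by
    intro P hP
    apply Finset.card_image_of_injOn
    rintro ⟨r, c, s⟩ hp ⟨r', c', s'⟩ hq hpq
    have h1 : r = r' := congrArg Prod.fst hpq
    have h2 : c = c' := congrArg Prod.snd hpq
    have h3 := (hP _ hp _ hq).1 h1 h2
    simp only at h3
    rw [h1, h2, h3]
  rw [← key W hW, ← key B hB]
  congr 1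
  ext ⟨r, c⟩
  have := hcell r c
  simp only [Finset.mem_image, Prod.mk.injEq, Prod.exists]
  constructor
  · rintro ⟨a, b, s, hm, rfl, rfl⟩
    obtain ⟨s', hs'⟩ := this.2 ⟨s, hm⟩
    exact ⟨a, b, s', hs', rfl, rfl⟩
  · rintro ⟨a, b, s, hm, rfl, rfl⟩
    obtain ⟨s', hs'⟩ := this.1 ⟨s, hm⟩
    exact ⟨a, b, s', hs', rfl, rfl⟩

/-- **MP_4671c3_co, Q1, answered negatively.**  For every latin bitrade `(W,B)` whose mates both
embed in some abelian group, `ρ(W,B) ≤ 2 ⌊log₂ |W|⌋ + 5`, and the least rank is attained.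
Consequently the rank never grows linearly: there are no constant `c > 0` and no family of such
bitrades with `|W_n| → ∞` and `ρ(W_n,B_n) ≥ c |W_n|` for all `n`. -/
theorem result :
    (∀ (R C S : Type u) (W B : Finset (R × C × S)), IsBitrade W B → BothEmbed.{u, v} W B →
      (∃ (G : Type) (_ : AddCommGroup G), GeneratedBy G (rho W B) ∧ Embeds W G ∧ Embeds B G) ∧
      rho W B ≤ 2 * Nat.log 2 W.card + 5) ∧
    ¬ ∃ (R C S : ℕ → Type u) (W B : (n : ℕ) → Finset (R n × C n × S n)) (c : ℝ), 0 < c ∧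
      (∀ n, IsBitrade (W n) (B n)) ∧ (∀ n, BothEmbed.{u, v} (W n) (B n)) ∧
      Filter.Tendsto (fun n => (W n).card) Filter.atTop Filter.atTop ∧
      ∀ n, c * ((W n).card : ℝ) ≤ (rho (W n) (B n) : ℝ) := by
  have main : ∀ (R C S : Type u) (W B : Finset (R × C × S)), IsBitrade W B →
      BothEmbed.{u, v} W B →
      (∃ (G : Type) (_ : AddCommGroup G), GeneratedBy G (rho W B) ∧ Embeds W G ∧ Embeds B G) ∧
      rho W B ≤ 2 * Nat.log 2 W.card + 5 := by
    intro R C S W B hbt ⟨A, instA, hW, hB⟩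
    have := exists_small_group W B hW hB (card_eq hbt)
    exact ⟨Nat.sInf_mem (s := {m : ℕ | ∃ (G : Type) (_ : AddCommGroup G),
      GeneratedBy G m ∧ Embeds W G ∧ Embeds B G}) ⟨_, this⟩, Nat.sInf_le this⟩
  refine ⟨main, ?_⟩
  rintro ⟨R, C, S, W, B, c, hc, hbt, hemb, htend, hlow⟩
  have hbound : ∀ n, c * ((W n).card : ℝ) ≤ 2 * (Nat.log 2 (W n).card : ℝ) + 5 := by
    intro n
    refine (hlow n).trans ?_
    exact_mod_cast (main _ _ _ _ _ (hbt n) (hemb n)).2
  -- `2 log₂ x + 5 = o(x)`
  have hlim : Filter.Tendsto (fun x : ℕ => (2 * (Nat.log 2 x : ℝ) + 5) / (x : ℝ)) Filter.atTop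
      (nhds 0) := by
    have h1 : Filter.Tendsto (fun x : ℝ => (2 * (Real.log x / Real.log 2) + 5) / x) Filter.atTop
        (nhds 0) := by
      have e : (fun x : ℝ => (2 * (Real.log x / Real.log 2) + 5) / x) =
          fun x => (2 / Real.log 2) * (Real.log x / x) + 5 * x⁻¹ := by
        funext x; ring
      rw [e]
      have a1 : Filter.Tendsto (fun x : ℝ => Real.log x / x) Filter.atTop (nhds 0) :=
        Real.isLittleO_log_id_atTop.tendsto_div_nhds_zero
      have a2 : Filter.Tendsto (fun x : ℝ => x⁻¹) Filter.atTop (nhds 0) := tendsto_inv_atTop_zero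
      simpa using (a1.const_mul (2 / Real.log 2)).add (a2.const_mul 5)
    have h2 := h1.comp tendsto_natCast_atTop_atTop
    refine squeeze_zero' (Filter.Eventually.of_forall fun x => by positivity) ?_ h2
    filter_upwards [Filter.eventually_ge_atTop 1] with x hx
    have hx0 : (0 : ℝ) < x := by exact_mod_cast hx
    have hlog : (Nat.log 2 x : ℝ) ≤ Real.log x / Real.log 2 := by
      rw [le_div_iff₀ (Real.log_pos (by norm_num)), ← Real.log_pow]
      apply Real.log_le_log (by positivity)
      exact_mod_cast Nat.pow_log_le_self 2 (by omega)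
    show _ ≤ (2 * (Real.log (x : ℝ) / Real.log 2) + 5) / (x : ℝ)
    gcongr
  have h3 := (hlim.comp htend).eventually (gt_mem_nhds hc)
  have h4 := htend.eventually (Filter.eventually_ge_atTop 1)
  obtain ⟨n, hn1, hn2⟩ := (h3.and h4).exists
  have hpos : (0 : ℝ) < ((W n).card : ℝ) := by exact_mod_cast hn2
  simp only [Function.comp] at hn1
  rw [div_lt_iff₀ hpos] at hn1
  exact absurd (hbound n) (not_le.2 hn1)

end Pool.Agent.Results.MP_4671c3_co.LogRank
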